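import Pool.Agent.H16.TO.Targets

/-!
# The axioms of a system with two orders are definable
-/

set_option autoImplicit false

namespace Pool.Agent.H69.TW

open Pool.Agent.H16.TO

theorem pf_ad : T_CD → T_AD := by
  rintro ⟨cP, cR, cE, cC, cN, cA, cO, cI, cAx, cAy, cEx, cEy, cK, cFa, cFe⟩ Q _ τ enc _
  have lx : ∀ q, CD (fun _ P _ x _ => LabAt enc P q x) := fun q =>
    cA _ _ (cP (enc q)).1 (cFa Q _ fun q' => cI _ _ (cC (q' ≠ q)) (cN _ (cP (enc q')).1))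
  have ly : ∀ q, CD (fun _ P _ _ y => LabAt enc P q y) := fun q =>
    cA _ _ (cP (enc q)).2 (cFa Q _ fun q' => cI _ _ (cC (q' ≠ q)) (cN _ (cP (enc q')).2))
  have ex1 : ∀ U : Q → Prop, CD (fun _ P _ x _ => ∃ q, LabAt enc P q x ∧ U q) := fun U =>
    cFe Q _ fun q => cA _ _ (lx q) (cC (U q))
  have ey1 : ∀ U : Q → Prop, CD (fun _ P _ _ y => ∃ q, LabAt enc P q y ∧ U q) := fun U =>
    cFe Q _ fun q => cA _ _ (ly q) (cC (U q))
  have e2 : ∀ C : Q → Q → Prop, CD (fun _ P _ x y =>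
      ∃ q, ∃ q', (LabAt enc P q x ∧ LabAt enc P q' y) ∧ C q q') := fun C =>
    cFe Q _ fun q => cFe Q _ fun q' => cA _ _ (cA _ _ (lx q) (ly q')) (cC (C q q'))
  have h1 : CD (fun n P _ _ _ => ∀ a < n, ∃ q, LabAt enc P q a ∧ τ.U q) :=
    cAx (fun _ P _ x _ => ∃ q, LabAt enc P q x ∧ τ.U q) (ex1 τ.U)
  have hsub : ∀ i < 4, ∀ j < 4, CD (fun n _ R _ _ => ∀ a < n, ∀ b < n, R i a b → R j a b) :=
    fun i hi j hj => cAx (fun n _ R x _ => ∀ b < n, R i x b → R j x b)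
      (cAy (fun _ _ R x y => R i x y → R j x y) (cI _ _ (cR i hi).1 (cR j hj).1))
  have hcnt : ∀ i < 4, CD (fun n _ R _ _ => ∀ b < n, ¬ 2 ≤ {a | a < n ∧ R i a b}.ncard) :=
    fun i hi => cAy (fun n _ R _ y => ¬ 2 ≤ {a | a < n ∧ R i a y}.ncard)
      (cN _ (cK (fun _ _ R x y => R i x y) 2 (cR i hi).1))
  have hsx : ∀ i < 4, CD (fun n _ R x _ => ∃ b < n, R i x b) := fun i hi =>
    cEy (fun _ _ R x y => R i x y) (cR i hi).1
  have hpy : ∀ i < 4, CD (fun n _ R _ y => ∃ a < n, R i a y) := fun i hi =>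
    cEx (fun _ _ R x y => R i x y) (cR i hi).1
  have htot : ∀ i < 4, ∀ j < 4,
      CD (fun n _ R _ _ => ∀ a < n, (∃ b < n, R i a b) → ∃ b < n, R j a b) := fun i hi j hj =>
    cAx (fun n _ R x _ => (∃ b < n, R i x b) → ∃ b < n, R j x b) (cI _ _ (hsx i hi) (hsx j hj))
  have hfi : ∀ i < 4, ∀ U : Q → Prop, CD (fun n P R _ _ =>
      ∀ b < n, (∃ a < n, R i a b) ∨ ∃ q, LabAt enc P q b ∧ U q) := fun i hi U =>
    cAy (fun n P R _ y => (∃ a < n, R i a y) ∨ ∃ q, LabAt enc P q y ∧ U q)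
      (cO _ _ (hpy i hi) (ey1 U))
  have hla : ∀ i < 4, ∀ U : Q → Prop, CD (fun n P R _ _ =>
      ∀ a < n, (∃ b < n, R i a b) ∨ ∃ q, LabAt enc P q a ∧ U q) := fun i hi U =>
    cAx (fun n P R x _ => (∃ b < n, R i x b) ∨ ∃ q, LabAt enc P q x ∧ U q)
      (cO _ _ (hsx i hi) (ex1 U))
  have hst : ∀ i < 4, ∀ C : Q → Q → Prop, CD (fun n P R _ _ =>
      ∀ a < n, ∀ b < n, R i a b → ∃ q, ∃ q', (LabAt enc P q a ∧ LabAt enc P q' b) ∧ C q q') :=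
    fun i hi C => cAx (fun n P R x _ => ∀ b < n, R i x b →
        ∃ q, ∃ q', (LabAt enc P q x ∧ LabAt enc P q' b) ∧ C q q')
      (cAy (fun _ P R x y => R i x y →
        ∃ q, ∃ q', (LabAt enc P q x ∧ LabAt enc P q' y) ∧ C q q') (cI _ _ (cR i hi).1 (e2 C)))
  have hag : CD (fun n P R _ _ => ∀ a < n, ∀ b < n, R 0 a b →
      (∃ q, ∃ q', (LabAt enc P q a ∧ LabAt enc P q' b) ∧ τ.Ag q q') → R 1 a b) :=
    cAx (fun n P R x _ => ∀ b < n, R 0 x b →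
        (∃ q, ∃ q', (LabAt enc P q x ∧ LabAt enc P q' b) ∧ τ.Ag q q') → R 1 x b)
      (cAy (fun _ P R x y => R 0 x y →
        (∃ q, ∃ q', (LabAt enc P q x ∧ LabAt enc P q' y) ∧ τ.Ag q q') → R 1 x y)
        (cI _ _ (cR 0 (by norm_num)).1 (cI _ _ (e2 τ.Ag) (cR 1 (by norm_num)).1)))
  exact cA _ _ h1 (cA _ _ (hsub 2 (by norm_num) 0 (by norm_num)) (cA _ _ (hcnt 2 (by norm_num))
    (cA _ _ (htot 0 (by norm_num) 2 (by norm_num)) (cA _ _ (hsub 3 (by norm_num) 1 (by norm_num))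
    (cA _ _ (hcnt 3 (by norm_num)) (cA _ _ (htot 1 (by norm_num) 3 (by norm_num))
    (cA _ _ (hfi 0 (by norm_num) τ.F1) (cA _ _ (hla 0 (by norm_num) τ.L1)
    (cA _ _ (hst 2 (by norm_num) τ.C1) (cA _ _ (hfi 1 (by norm_num) τ.F2)
    (cA _ _ (hla 1 (by norm_num) τ.L2) (cA _ _ (hst 3 (by norm_num) τ.C2) hag))))))))))))

end Pool.Agent.H69.TW
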