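import Pool.Agent.H16.TO.Targets

/-!
# Mixed radix: carries and the digits of the next number
-/

set_option autoImplicit false

namespace Pool.Agent.H69.TW

open Pool.Agent.H16.TO

theorem wt_pos {n : ℕ → ℕ} (h : ∀ i, 0 < n i) (j : ℕ) : 0 < wt n j :=
  Finset.prod_pos fun i _ => h i

theorem wt_succ (n : ℕ → ℕ) (j : ℕ) : wt n (j + 1) = wt n j * n j := Finset.prod_range_succ _ _

theorem succ_mod (q b : ℕ) (hb : 0 < b) : (q + 1) % b = 0 ↔ q % b + 1 = b := by
  have h1 : (q + 1) % b = (q % b + 1) % b := by rw [Nat.mod_add_mod]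
  have h2 := Nat.mod_lt q hb
  rw [h1]
  constructor
  · intro h
    by_contra h3
    have h4 : q % b + 1 < b := by omega
    rw [Nat.mod_eq_of_lt h4] at h
    omega
  · intro h
    rw [h, Nat.mod_self]

theorem pf_cy : T_CY := by
  intro n hn k j
  induction j with
  | zero =>
    have h : wt n 0 = 1 := by simp [wt]
    rw [h, Nat.mod_one]
    exact ⟨fun _ => rfl, fun _ i hi => absurd hi (Nat.not_lt_zero i)⟩
  | succ j ih =>
    have h1 : (∀ i < j + 1, dig n k i + 1 = n i) ↔
        (∀ i < j, dig n k i + 1 = n i) ∧ dig n k j + 1 = n j := by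
      constructor
      · exact fun h => ⟨fun i hi => h i (by omega), h j (by omega)⟩
      · rintro ⟨h2, h3⟩ i hi
        rcases Nat.lt_succ_iff_lt_or_eq.1 hi with h4 | h4
        · exact h2 i h4
        · rw [h4]
          exact h3
    rw [h1, ih, wt_succ]
    have hd : (k + 1) % (wt n j * n j) = 0 ↔
        (k + 1) % wt n j = 0 ∧ ((k + 1) / wt n j) % n j = 0 := by
      rw [← Nat.dvd_iff_mod_eq_zero, ← Nat.dvd_iff_mod_eq_zero, ← Nat.dvd_iff_mod_eq_zero]
      constructor
      · intro h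
        have h2 : wt n j ∣ k + 1 := (Dvd.intro _ rfl).trans h
        exact ⟨h2, (Nat.dvd_div_iff_mul_dvd h2).2 h⟩
      · rintro ⟨h2, h3⟩
        exact (Nat.dvd_div_iff_mul_dvd h2).1 h3
    rw [hd]
    refine and_congr_right fun h => ?_
    rw [Nat.succ_div_of_dvd (Nat.dvd_of_mod_eq_zero h), succ_mod _ _ (hn j)]
    rfl

theorem pf_ds : T_DS := by
  intro n hn k j
  refine ⟨fun h => ?_, fun h => ?_⟩
  · unfold dig
    rw [Nat.succ_div_of_not_dvd (fun h2 => h (Nat.mod_eq_zero_of_dvd h2))]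
  · unfold dig
    rw [Nat.succ_div_of_dvd (Nat.dvd_of_mod_eq_zero h), succ_mod _ _ (hn j)]

end Pool.Agent.H69.TW
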